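import Mathlib
import Pool.Agent.Lib.MP_a5bfc0_al.Univ

set_option autoImplicit false

namespace Pool.Agent.Results.MP_a5bfc0_al.SimpleBiprimitive

/-- `G` is biprimitively finite: for every finite subgroup `H`, any two elements of prime order
of `N_G(H) / H` generate a finite subgroup. -/
def BiprimitivelyFinite (G : Type) [Group G] : Prop :=
  ∀ H : Subgroup G, Finite H →
    ∀ x y : Subgroup.normalizer (H : Set G) ⧸ H.subgroupOf (Subgroup.normalizer (H : Set G)),
      (orderOf x).Prime → (orderOf y).Prime → Finite (Subgroup.closure {x, y})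

/-- `G` is conjugacy biprimitively finite: for every finite subgroup `H`, any two conjugate
elements of prime order of `N_G(H) / H` generate a finite subgroup. -/
def ConjBiprimitivelyFinite (G : Type) [Group G] : Prop :=
  ∀ H : Subgroup G, Finite H →
    ∀ x y : Subgroup.normalizer (H : Set G) ⧸ H.subgroupOf (Subgroup.normalizer (H : Set G)),
      (orderOf x).Prime → (orderOf y).Prime → IsConj x y → Finite (Subgroup.closure {x, y})

/-- There is an infinite, finitely generated, simple, periodic, biprimitively finite (hence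
conjugacy biprimitively finite) group containing an involution and a non-trivial element of odd
order; moreover any `K` of its elements generate a finite subgroup, and all finite groups embed. -/
theorem result (K : ℕ) : ∃ (G : Type) (_ : Group G), Infinite G ∧ Group.FG G ∧ IsSimpleGroup G ∧
    (∀ g : G, IsOfFinOrder g) ∧ BiprimitivelyFinite G ∧ ConjBiprimitivelyFinite G ∧
    (∃ g : G, orderOf g = 2) ∧ (∃ g : G, g ≠ 1 ∧ Odd (orderOf g)) ∧
    (∀ g : Fin K → G, Finite (Subgroup.closure (Set.range g))) ∧
    ∀ (Q : Type) [Group Q] [Finite Q], ∃ ψ : Q →* G, Function.Injective ψ := by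
  obtain ⟨G, _, h1, h2, h3, h7, h8⟩ := Pool.Agent.Lib.MP_a5bfc0_al.exists_univ (2 + K)
  have h4 : ∀ a b : G, (Subgroup.closure {a, b} : Set G).Finite := fun a b =>
    (h7 (Fin.append ![a, b] 1)).subset (Subgroup.closure_mono (by
      rintro _ (rfl | rfl)
      exacts [⟨Fin.castAdd K 0, Fin.append_left ..⟩, ⟨Fin.castAdd K 1, Fin.append_left ..⟩]))
  have h5 : ∀ n : ℕ, ∀ [NeZero n], ∃ g : G, orderOf g = n := fun n _ => by
    obtain ⟨ψ, hψ⟩ := h8 (Multiplicative (ZMod n))
    exact ⟨ψ (.ofAdd 1), by rw [orderOf_injective ψ hψ, orderOf_ofAdd_eq_addOrderOf,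
      ZMod.addOrderOf_one]⟩
  have h6 : BiprimitivelyFinite G := fun H _ x y _ _ =>
    (Pool.Agent.Lib.MP_a5bfc0_al.two_gen_map _ (QuotientGroup.mk'_surjective _)
      (Pool.Agent.Lib.MP_a5bfc0_al.two_gen_sub _ h4) x y).to_subtype
  obtain ⟨g, hg⟩ := h5 3
  refine ⟨G, inferInstance, h1, h2, h3, fun a => ?_, h6, fun H hH x y hx hy _ => h6 H hH x y hx hy,
    h5 2, ⟨g, fun h => ?_, by rw [hg]; decide⟩, fun g => ?_, h8⟩
  · have := (h4 a a).to_subtype
    have h7 : a ∈ Subgroup.closure {a, a} := Subgroup.subset_closure (by simp)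
    exact (Subgroup.closure {a, a}).subtype.isOfFinOrder
      (isOfFinOrder_of_finite (⟨a, h7⟩ : Subgroup.closure {a, a}))
  · rw [h, orderOf_one] at hg
    omega
  · exact ((h7 (Fin.append 1 g)).subset (Subgroup.closure_mono (by
      rintro _ ⟨i, rfl⟩
      exact ⟨Fin.natAdd 2 i, Fin.append_right ..⟩))).to_subtype

end Pool.Agent.Results.MP_a5bfc0_al.SimpleBiprimitive
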